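import Pool.Agent.TH289.C.C7

/-!
# Disjointness of minimal convergence actions from non-proper representations: dynamics
-/

set_option autoImplicit false

open Filter Topology Set Pool.Agent.TH289.C

namespace Pool.Agent.TH632.DJ

variable {G : Type} [Group G]

/-- Every orbit is dense. -/
def Minimal {X : Type} [TopologicalSpace X] (α : Action G X) : Prop :=
  ∀ x, ∀ U : Set X, IsOpen U → U.Nonempty → ∃ g, α.map g x ∈ U

theorem exists_conj {X : Type} [TopologicalSpace X] [T1Space X]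
    (hX : ∀ (U : Set X) (x : X), IsOpen U → U.Nonempty → ∃ u ∈ U, u ≠ x) (α : Action G X)
    (hmin : Minimal α) {h : ℕ → G} {p q : X}
    (hpq : ∀ U ∈ 𝓝 p, ∀ W ∈ 𝓝 q, ∀ᶠ n in atTop, ∀ x, x ∉ W → α.map (h n) x ∈ U)
    {U : Set X} (hU : IsOpen U) (hne : U.Nonempty) (x : X) :
    ∃ g, α.map g p ∈ U ∧ α.map g q ≠ x := by
  by_contra hcon
  push Not at hcon
  have A : ∀ k u, u ∈ U → α.map k u ∈ U → α.map k x = x := by
    intro k u hu hku
    have hV : IsOpen (U ∩ (α.map k) ⁻¹' U) := hU.inter (hU.preimage (α.cont k))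
    obtain ⟨g, hg⟩ := hmin p _ hV ⟨u, hu, hku⟩
    have h1 := hcon g hg.1
    have h2 := hcon (k * g) (by rw [α.map_mul]; exact hg.2)
    rw [α.map_mul, h1] at h2
    exact h2
  obtain ⟨g', hg'⟩ := hmin p U hU hne
  obtain ⟨u₀, -, hu₀⟩ := hX univ x isOpen_univ ⟨x, mem_univ x⟩
  obtain ⟨g, hg⟩ := hmin q {z | z ≠ x} isOpen_ne ⟨u₀, hu₀⟩
  have hkey : ∀ z, z ≠ α.map g q → ∀ᶠ n in atTop, α.map (g' * h n * g⁻¹) z ∈ U := by
    intro z hz
    have hz' : α.map g⁻¹ z ≠ q := by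
      intro h0
      apply hz
      rw [← h0, ← α.map_mul, mul_inv_cancel, α.map_one]
    have h1 := hpq ((α.map g') ⁻¹' U) ((hU.preimage (α.cont g')).mem_nhds hg')
      ({α.map g⁻¹ z}ᶜ) (isOpen_compl_singleton.mem_nhds (by simpa using hz'.symm))
    filter_upwards [h1] with n hn
    have h2 := hn (α.map g⁻¹ z) (by simp)
    rw [α.map_mul, α.map_mul]
    exact h2
  obtain ⟨u, hu, hug⟩ := hX U (α.map g q) hU hne
  obtain ⟨n, hn1, hn2⟩ := ((hkey x (Ne.symm hg)).and (hkey u hug)).exists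
  have hx := A _ u hu hn2
  rw [hx] at hn1
  obtain ⟨u', hu', hux'⟩ := hX U x hU hne
  obtain ⟨k, hk⟩ := hmin x (U ∩ {z | z ≠ x}) (hU.inter isOpen_ne) ⟨u', hu', hux'⟩
  exact hk.2 (A k x hn1 hk.1)

/-- The orbit of every pair of points comes close to every point of `X × closure (G y)`. -/
theorem dense_pairs {X : Type} [TopologicalSpace X] [T1Space X]
    (hX : ∀ (U : Set X) (x : X), IsOpen U → U.Nonempty → ∃ u ∈ U, u ≠ x) (α : Action G X)
    (hmin : Minimal α) {h : ℕ → G} {p q : X}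
    (hpq : ∀ U ∈ 𝓝 p, ∀ W ∈ 𝓝 q, ∀ᶠ n in atTop, ∀ x, x ∉ W → α.map (h n) x ∈ U)
    {Y : Type} [TopologicalSpace Y] (β : Action G Y)
    (hβ : ∀ y, Tendsto (fun n => β.map (h n) y) atTop (𝓝 y)) (x : X) (y : Y) (k : G)
    {U : Set X} (hU : IsOpen U) (hne : U.Nonempty) {V : Set Y} (hV : IsOpen V)
    (hy : β.map k y ∈ V) : ∃ g, α.map g x ∈ U ∧ β.map g y ∈ V := by
  obtain ⟨g, hg, hgq⟩ := exists_conj hX α hmin hpq hU hne (α.map k x)
  have hz' : α.map (g⁻¹ * k) x ≠ q := by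
    intro h0
    apply hgq
    rw [← h0, ← α.map_mul, mul_inv_cancel_left]
  have h1 := hpq ((α.map g) ⁻¹' U) ((hU.preimage (α.cont g)).mem_nhds hg)
    ({α.map (g⁻¹ * k) x}ᶜ) (isOpen_compl_singleton.mem_nhds (by simpa using hz'.symm))
  have h2 : Tendsto (fun n => β.map g (β.map (h n) (β.map (g⁻¹ * k) y))) atTop
      (𝓝 (β.map g (β.map (g⁻¹ * k) y))) :=
    ((β.cont g).tendsto _).comp (hβ _)
  have h3 : β.map g (β.map (g⁻¹ * k) y) = β.map k y := by
    rw [← β.map_mul, mul_inv_cancel_left]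
  rw [h3] at h2
  obtain ⟨n, hn1, hn2⟩ := (h1.and (h2.eventually (hV.mem_nhds hy))).exists
  refine ⟨g * h n * (g⁻¹ * k), ?_, ?_⟩
  · rw [α.map_mul, α.map_mul]
    exact hn1 _ (by simp)
  · rw [β.map_mul, β.map_mul]
    exact hn2

/-- The closure of the orbit of every pair is a product. -/
theorem closure_eq {X : Type} [TopologicalSpace X] [T1Space X]
    (hX : ∀ (U : Set X) (x : X), IsOpen U → U.Nonempty → ∃ u ∈ U, u ≠ x) (α : Action G X)
    (hmin : Minimal α) (hα : Converges α) {h : ℕ → G} (hh : Tendsto h atTop cofinite)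
    {Y : Type} [TopologicalSpace Y] (β : Action G Y)
    (hβ : ∀ y, Tendsto (fun n => β.map (h n) y) atTop (𝓝 y)) (x : X) (y : Y) :
    closure (range fun g => (α.map g x, β.map g y)) =
      univ ×ˢ closure (range fun g => β.map g y) := by
  obtain ⟨φ, hφ, p, q, hpq⟩ := hα h hh
  have hβ' : ∀ y, Tendsto (fun n => β.map (h (φ n)) y) atTop (𝓝 y) := fun y =>
    (hβ y).comp hφ.tendsto_atTop
  apply Subset.antisymm
  · refine closure_minimal ?_ (isClosed_univ.prod isClosed_closure)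
    rintro _ ⟨g, rfl⟩
    exact ⟨mem_univ _, subset_closure ⟨g, rfl⟩⟩
  · rintro ⟨x', y'⟩ ⟨-, hy'⟩
    rw [mem_closure_iff_nhds_basis
      ((nhds_basis_opens x').prod_nhds (nhds_basis_opens y'))]
    rintro ⟨U, V⟩ ⟨⟨hxU, hU⟩, hyV, hV⟩
    obtain ⟨_, hk, k, rfl⟩ := mem_closure_iff.1 hy' V hV hyV
    obtain ⟨g, hg1, hg2⟩ := dense_pairs hX α hmin hpq β hβ' x y k hU ⟨x', hxU⟩ hV hk
    exact ⟨_, ⟨g, rfl⟩, hg1, hg2⟩

end Pool.Agent.TH632.DJ
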