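import Pool.Agent.TH632.DJ.A

/-!
# Isometries of hyperbolic space: a non-proper action has elements close to the identity
-/

set_option autoImplicit false

open Filter Topology Set Pool.Agent.TH289.C

namespace Pool.Agent.TH632.DJ

section Lor

variable {E : Type} [NormedAddCommGroup E] [InnerProductSpace ℝ E]

/-- The form `2 b(v,u)^2 - q(u)`, positive definite in `u` when `q(v) = 1`. -/
noncomputable def pf (v u : ℝ × E) : ℝ := 2 * (bf v u) ^ 2 - qf u

theorem bf_eq (v w : ℝ × E) : bf v w = (qf (v + w) - qf v - qf w) / 2 := by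
  rw [qf_add]; ring

theorem pf_pos {v u : ℝ × E} (hv : v ∈ Hyp E) (hu : u ≠ 0) : 0 < pf v u := by
  obtain ⟨hv1, hv2⟩ := hv
  unfold qf at hv1
  have hs : ‖v.2‖ < v.1 := by nlinarith [norm_nonneg v.2]
  unfold pf bf qf
  set A := ‖v.2‖ with hA
  set B := ‖u.2‖ with hB
  have hA0 : 0 ≤ A := norm_nonneg _
  have hB0 : 0 ≤ B := norm_nonneg _
  have hin := abs_real_inner_le_norm v.2 u.2
  rw [← hA, ← hB] at hin
  set I : ℝ := inner ℝ v.2 u.2 with hI
  set w := v.1 * u.1 - I with hw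
  by_cases hTB : B ≤ |u.1|
  · -- |w| ≥ |t| s - A B ≥ 0
    have h1 : v.1 * |u.1| - A * B ≤ |w| := by
      have h2 : v.1 * |u.1| = |v.1 * u.1| := by rw [abs_mul, abs_of_pos hv2]
      rw [h2, hw]
      have h3 := abs_sub_abs_le_abs_sub (v.1 * u.1) I
      linarith
    have hT0 : 0 < |u.1| := by
      rcases (abs_nonneg u.1).lt_or_eq with h | h
      · exact h
      · exfalso
        apply hu
        have h4 : u.1 = 0 := abs_eq_zero.1 h.symm
        have h5 : B = 0 := le_antisymm (by rw [← h] at hTB; exact hTB) hB0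
        exact Prod.ext h4 (norm_eq_zero.1 h5)
    have h6 : 0 < v.1 * |u.1| - A * B := by nlinarith
    have h7 : (v.1 * |u.1| - A * B) ^ 2 ≤ w ^ 2 := by
      rw [← sq_abs w]
      exact pow_le_pow_left₀ h6.le h1 2
    have h8 : |u.1| ^ 2 - B ^ 2 ≤ (v.1 * |u.1| - A * B) ^ 2 := by
      nlinarith [sq_nonneg (|u.1| * A - v.1 * B)]
    rw [sq_abs] at h8
    have h9 : 0 < (v.1 * |u.1| - A * B) ^ 2 := by positivity
    nlinarith
  · push Not at hTB
    have h1 : u.1 ^ 2 < B ^ 2 := by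
      rw [← sq_abs u.1]
      exact pow_lt_pow_left₀ hTB (abs_nonneg _) two_ne_zero
    nlinarith [sq_nonneg w]

theorem continuous_pf : Continuous fun z : (ℝ × E) × (ℝ × E) => pf z.1 z.2 := by
  unfold pf bf qf
  fun_prop

theorem pf_smul (v u : ℝ × E) (c : ℝ) : pf v (c • u) = c ^ 2 * pf v u := by
  unfold pf bf qf
  simp only [Prod.smul_fst, Prod.smul_snd, smul_eq_mul, inner_smul_right, norm_smul, mul_pow,
    Real.norm_eq_abs, sq_abs]
  ring

/-- Uniform comparison of the forms `pf v`, `v ∈ K`, with the norm. -/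
theorem pf_bounds [FiniteDimensional ℝ E] {K : Set (ℝ × E)} (hK : IsCompact K) (hKH : K ⊆ Hyp E) :
    ∃ c C : ℝ, 0 < c ∧ 0 < C ∧ ∀ v ∈ K, ∀ u, c * ‖u‖ ^ 2 ≤ pf v u ∧ pf v u ≤ C * ‖u‖ ^ 2 := by
  rcases K.eq_empty_or_nonempty with rfl | hne
  · exact ⟨1, 1, one_pos, one_pos, by simp⟩
  have hS : IsCompact (K ×ˢ Metric.sphere (0 : ℝ × E) 1) := hK.prod (isCompact_sphere _ _)
  have hSne : (K ×ˢ Metric.sphere (0 : ℝ × E) 1).Nonempty := by
    refine hne.prod ?_
    have : Nontrivial (ℝ × E) := inferInstance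
    exact (NormedSpace.sphere_nonempty (x := (0 : ℝ × E)) (r := 1)).2 zero_le_one
  obtain ⟨z, hz, hzmin⟩ := hS.exists_isMinOn hSne continuous_pf.continuousOn
  obtain ⟨z', hz', hzmax⟩ := hS.exists_isMaxOn hSne continuous_pf.continuousOn
  have hpos : ∀ y ∈ K ×ˢ Metric.sphere (0 : ℝ × E) 1, 0 < pf y.1 y.2 := by
    intro y hy
    refine pf_pos (hKH hy.1) ?_
    intro h0
    have := hy.2
    rw [h0] at this
    simp at this
  refine ⟨pf z.1 z.2, pf z'.1 z'.2, hpos z hz, hpos z' hz', fun v hv u => ?_⟩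
  by_cases hu : u = 0
  · subst hu
    have := pf_smul v (0 : ℝ × E) 0
    simp only [smul_zero, ne_eq, OfNat.ofNat_ne_zero, not_false_eq_true, zero_pow, zero_mul] at this
    simp [this]
  have hn : 0 < ‖u‖ := norm_pos_iff.2 hu
  have hy : (v, ‖u‖⁻¹ • u) ∈ K ×ˢ Metric.sphere (0 : ℝ × E) 1 := by
    refine ⟨hv, ?_⟩
    simp [norm_smul, hn.ne']
  have h1 : pf v u = ‖u‖ ^ 2 * pf v (‖u‖⁻¹ • u) := by
    rw [← pf_smul, smul_smul, mul_inv_cancel₀ hn.ne', one_smul]
  have h2 : pf z.1 z.2 ≤ pf v (‖u‖⁻¹ • u) := hzmin hy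
  have h3 : pf v (‖u‖⁻¹ • u) ≤ pf z'.1 z'.2 := hzmax hy
  have h4 : 0 < ‖u‖ ^ 2 := by positivity
  rw [h1]
  constructor <;> nlinarith

theorem norm_bound [FiniteDimensional ℝ E] {K : Set (ℝ × E)} (hK : IsCompact K) (hKH : K ⊆ Hyp E) :
    ∃ R : ℝ, ∀ T : (ℝ × E) →L[ℝ] (ℝ × E), (∀ u, qf (T u) = qf u) → (∃ v ∈ K, T v ∈ K) →
      ‖T‖ ≤ R := by
  obtain ⟨c, C, hc, hC, h⟩ := pf_bounds hK hKH
  refine ⟨Real.sqrt (C / c), fun T hT => ?_⟩
  rintro ⟨v, hv, hTv⟩
  refine T.opNorm_le_bound (Real.sqrt_nonneg _) fun u => ?_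
  have hb : ∀ x y, bf (T x) (T y) = bf x y := by
    intro x y
    rw [bf_eq, bf_eq, ← map_add, hT, hT, hT]
  have h1 : pf (T v) (T u) = pf v u := by
    unfold pf
    rw [hb, hT]
  have h2 := (h _ hTv (T u)).1
  have h3 := (h _ hv u).2
  rw [h1] at h2
  have h4 : ‖T u‖ ^ 2 ≤ (C / c) * ‖u‖ ^ 2 := by
    rw [div_mul_eq_mul_div, le_div_iff₀ hc]
    linarith
  have h5 : (Real.sqrt (C / c) * ‖u‖) ^ 2 = (C / c) * ‖u‖ ^ 2 := by
    rw [mul_pow, Real.sq_sqrt (by positivity)]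
  exact le_of_sq_le_sq (by rw [h5]; exact h4) (by positivity)

end Lor

variable {G : Type} [Group G]

/-- Elements of a set `S` closed under inverses, whose images are bounded: arbitrarily close to the
identity there are infinitely many elements of the group. -/
theorem infinite_near_one {V : Type} [NormedAddCommGroup V] [NormedSpace ℝ V]
    [FiniteDimensional ℝ V] (ρ : LinAction G V) {S : Set G} (hS : S.Infinite)
    (hinv : ∀ g ∈ S, g⁻¹ ∈ S) {R : ℝ} (hR : ∀ g ∈ S, ‖ρ.map g‖ ≤ R) {δ : ℝ} (hδ : 0 < δ) :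
    {g : G | ‖ρ.map g - ContinuousLinearMap.id ℝ V‖ < δ}.Infinite := by
  set e := hS.natEmbedding
  set z : ℕ → (V →L[ℝ] V) × (V →L[ℝ] V) := fun n => (ρ.map (e n), ρ.map (e n : G)⁻¹) with hz
  have hcomp : IsCompact (Metric.closedBall (0 : V →L[ℝ] V) R ×ˢ
      Metric.closedBall (0 : V →L[ℝ] V) R) :=
    (isCompact_closedBall _ _).prod (isCompact_closedBall _ _)
  obtain ⟨⟨A, B⟩, -, ψ, hψ, hlim⟩ := hcomp.tendsto_subseq (x := z) (fun n => by
    refine ⟨?_, ?_⟩
    · simpa [hz] using hR _ (e n).2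
    · simpa [hz] using hR _ (hinv _ (e n).2))
  have hA : Tendsto (fun n => ρ.map (e (ψ n))) atTop (𝓝 A) := by
    have := (continuous_fst.tendsto (A, B)).comp hlim
    exact this
  have hB : Tendsto (fun n => ρ.map (e (ψ n) : G)⁻¹) atTop (𝓝 B) := by
    have := (continuous_snd.tendsto (A, B)).comp hlim
    exact this
  have hcompat : ∀ g h : G, (ρ.map g).comp (ρ.map h) = ρ.map (g * h) := by
    intro g h
    ext v
    simp [ρ.map_mul]
  have hone : ρ.map 1 = ContinuousLinearMap.id ℝ V := by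
    ext v
    simp [ρ.map_one]
  have hcontcomp : Continuous fun z : (V →L[ℝ] V) × (V →L[ℝ] V) => z.1.comp z.2 := by
    fun_prop
  have hBA : B.comp A = ContinuousLinearMap.id ℝ V := by
    have h1 : Tendsto (fun n => (ρ.map (e (ψ n) : G)⁻¹).comp (ρ.map (e (ψ n)))) atTop
        (𝓝 (B.comp A)) :=
      (hcontcomp.tendsto (B, A)).comp (hB.prodMk_nhds hA)
    have h2 : ∀ n, (ρ.map (e (ψ n) : G)⁻¹).comp (ρ.map (e (ψ n))) =
        ContinuousLinearMap.id ℝ V := by
      intro n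
      rw [hcompat, inv_mul_cancel, hone]
    simp only [h2] at h1
    exact (tendsto_nhds_unique h1 tendsto_const_nhds)
  have h1 : Tendsto (fun z : ℕ × ℕ => (ρ.map (e (ψ z.1) : G)⁻¹).comp (ρ.map (e (ψ z.2))))
      (atTop ×ˢ atTop) (𝓝 (ContinuousLinearMap.id ℝ V)) := by
    rw [← hBA]
    exact (hcontcomp.tendsto (B, A)).comp
      ((hB.comp tendsto_fst).prodMk_nhds (hA.comp tendsto_snd))
  have h2 := (Metric.tendsto_nhds.1 h1 δ hδ)
  rw [prod_atTop_atTop_eq, eventually_atTop] at h2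
  obtain ⟨⟨N, M⟩, hNM⟩ := h2
  have hinj : Function.Injective fun k : ℕ => (e (ψ N) : G)⁻¹ * (e (ψ (M + k)) : G) := by
    intro k l hkl
    have h3 : (e (ψ (M + k)) : G) = e (ψ (M + l)) := mul_left_cancel hkl
    have h4 := e.injective (Subtype.ext h3)
    have h5 := hψ.injective h4
    omega
  refine (infinite_range_of_injective hinj).mono ?_
  rintro _ ⟨k, rfl⟩
  have h3 := hNM (N, M + k) ⟨le_rfl, Nat.le_add_right _ _⟩
  rw [dist_eq_norm, hcompat] at h3
  exact h3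

/-- An injective sequence whose images tend to the identity. -/
theorem exists_seq {V : Type} [NormedAddCommGroup V] [NormedSpace ℝ V] (ρ : LinAction G V)
    (hinf : ∀ δ : ℝ, 0 < δ → {g : G | ‖ρ.map g - ContinuousLinearMap.id ℝ V‖ < δ}.Infinite) :
    ∃ h : ℕ → G, Tendsto h atTop cofinite ∧ ∀ v, Tendsto (fun n => ρ.map (h n) v) atTop (𝓝 v) := by
  classical
  obtain ⟨f, hfP, hf⟩ := exists_seq_of_forall_finset_exists
    (fun z : ℕ × G => ‖ρ.map z.2 - ContinuousLinearMap.id ℝ V‖ < 1 / ((z.1 : ℝ) + 1))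
    (fun z w => z.1 < w.1 ∧ z.2 ≠ w.2) (fun s _ => by
      obtain ⟨g, hg, hgs⟩ := (hinf (1 / (((s.sup Prod.fst + 1 : ℕ) : ℝ) + 1))
        (by positivity)).exists_notMem_finset (s.image Prod.snd)
      refine ⟨(s.sup Prod.fst + 1, g), hg, fun z hz => ⟨?_, ?_⟩⟩
      · exact Nat.lt_succ_of_le (Finset.le_sup (f := Prod.fst) hz)
      · rintro rfl
        exact hgs (Finset.mem_image_of_mem _ hz))
  have hmono : StrictMono fun n => (f n).1 := fun m n hmn => (hf m n hmn).1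
  have hinj : Function.Injective fun n => (f n).2 := by
    intro m n hmn
    by_contra hne
    rcases lt_or_gt_of_ne hne with h | h
    · exact (hf m n h).2 hmn
    · exact (hf n m h).2 hmn.symm
  refine ⟨fun n => (f n).2, ?_, fun v => ?_⟩
  · rw [← Nat.cofinite_eq_atTop]
    exact hinj.tendsto_cofinite
  · rw [tendsto_iff_norm_sub_tendsto_zero]
    have h1 : Tendsto (fun n : ℕ => 1 / ((n : ℝ) + 1) * ‖v‖) atTop (𝓝 0) := by
      simpa using (tendsto_one_div_add_atTop_nhds_zero_nat (𝕜 := ℝ)).mul_const ‖v‖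
    refine squeeze_zero (fun n => norm_nonneg _) (fun n => ?_) h1
    have h2 : ρ.map (f n).2 v - v = (ρ.map (f n).2 - ContinuousLinearMap.id ℝ V) v := by simp
    rw [h2]
    refine (ContinuousLinearMap.le_opNorm _ _).trans ?_
    refine mul_le_mul_of_nonneg_right ?_ (norm_nonneg _)
    refine (hfP n).le.trans ?_
    have h3 : (n : ℝ) ≤ ((f n).1 : ℝ) := by exact_mod_cast hmono.id_le n
    exact one_div_le_one_div_of_le (by positivity) (by linarith)

end Pool.Agent.TH632.DJ
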