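import Pool.Agent.TH632.DJ.B

/-!
# The boundary action of an isometric action, and the dichotomy
-/

set_option autoImplicit false

open Filter Topology Set Pool.Agent.TH289.C

namespace Pool.Agent.TH632.DJ

variable {G : Type} [Group G]

/-- `ρ` is an action by isometries of hyperbolic space `H^{m+1}` (hyperboloid model). -/
def IsometricAct {m : ℕ} (ρ : LinAction G (Mink m)) : Prop :=
  (∀ g v, lor (ρ.map g v) = lor v) ∧ ∀ g, 0 < time (ρ.map g (origin m))

/-- `β` is the action of `ρ` on the sphere at infinity. -/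
def IsBoundary {m : ℕ} (ρ : LinAction G (Mink m)) (β : Action G (Sn m)) : Prop :=
  ∀ g y, ∃ c : ℝ, 0 < c ∧ ρ.map g (light y) = c • light (β.map g y)

instance instFin (m : ℕ) : FiniteDimensional ℝ (Mink m) :=
  inferInstanceAs (FiniteDimensional ℝ (ℝ × Euc m))

theorem norm_Sn {n : ℕ} (x : Sn n) : ‖(x : Metric.sphere (0 : Euc n) 1).1‖ = 1 := by
  simpa using (show Metric.sphere (0 : Euc n) 1 from x).2

theorem perfect {n : ℕ} (hn : 1 ≤ n) (U : Set (Sn n)) (x : Sn n) (hU : IsOpen U)
    (hne : U.Nonempty) : ∃ u ∈ U, u ≠ x := by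
  by_contra hcon
  push Not at hcon
  have hUx : U = {x} := by
    apply Subset.antisymm
    · intro u hu
      exact hcon u hu
    · obtain ⟨u, hu⟩ := hne
      have := hcon u hu
      rintro _ rfl
      rwa [this] at hu
  have hrank : 1 < Module.rank ℝ (Euc n) := by
    rw [← Module.finrank_eq_rank]
    have : Module.finrank ℝ (Euc n) = n + 1 := by simp
    rw [this]
    exact_mod_cast (by omega : 1 < n + 1)
  have hpre : IsPreconnected (Metric.sphere (0 : Euc n) 1) := isPreconnected_sphere hrank 0 1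
  have hps : PreconnectedSpace (Sn n) := Subtype.preconnectedSpace hpre
  have hclopen : IsClopen ({x} : Set (Sn n)) := ⟨isClosed_singleton, hUx ▸ hU⟩
  rcases isClopen_iff.1 hclopen with h | h
  · exact (singleton_nonempty x).ne_empty h
  · have hx := norm_Sn x
    set y : Sn n := (⟨-(show Metric.sphere (0 : Euc n) 1 from x).1, by
      rw [mem_sphere_zero_iff_norm, norm_neg]
      exact norm_Sn x⟩ : Metric.sphere (0 : Euc n) 1) with hy
    have h1 : y ∈ ({x} : Set (Sn n)) := h ▸ mem_univ y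
    have h2 : y = x := h1
    have h3 : -(show Metric.sphere (0 : Euc n) 1 from x).1 =
        (show Metric.sphere (0 : Euc n) 1 from x).1 := congrArg Subtype.val h2
    have h4 : (show Metric.sphere (0 : Euc n) 1 from x).1 = 0 := by
      have h5 : (2 : ℝ) • (show Metric.sphere (0 : Euc n) 1 from x).1 = 0 := by
        rw [two_smul]
        nth_rewrite 1 [← h3]
        simp
      exact (smul_eq_zero.1 h5).resolve_left two_ne_zero
    rw [h4] at hx
    simp at hx

/-- A representation that is not proper has elements arbitrarily close to the identity. -/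
theorem exists_seq_of_not_proper {m : ℕ} (ρ : LinAction G (Mink m)) (hρ : IsometricAct ρ)
    (hnp : ¬ ActsProperly (HypSpace m) (fun g => ρ.map g)) :
    ∃ h : ℕ → G, Tendsto h atTop cofinite ∧
      ∀ v, Tendsto (fun n => ρ.map (h n) v) atTop (𝓝 v) := by
  unfold ActsProperly at hnp
  push Not at hnp
  obtain ⟨K, hKH, hK, hinf⟩ := hnp
  obtain ⟨R, hR⟩ := norm_bound (E := Euc m) (K := K) hK hKH
  have hR' : ∀ g ∈ {g : G | ∃ v ∈ K, ρ.map g v ∈ K}, ‖ρ.map g‖ ≤ R := fun g hg =>
    hR (ρ.map g) (fun u => hρ.1 g u) hg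
  refine exists_seq ρ fun δ hδ => infinite_near_one ρ hinf ?_ hR' hδ
  rintro g ⟨v, hv, hgv⟩
  refine ⟨ρ.map g v, hgv, ?_⟩
  rw [← ρ.map_mul, inv_mul_cancel, ρ.map_one]
  exact hv

theorem light_inj {m : ℕ} {c c' : ℝ} (hc : 0 < c) {y y' : Sn m}
    (h : c • light y = c' • light y') : c = c' ∧ y = y' := by
  have h' : c • ((1 : ℝ), (y : Metric.sphere (0 : Euc m) 1).1) =
      c' • ((1 : ℝ), (y' : Metric.sphere (0 : Euc m) 1).1) := h
  have h1 := congrArg Prod.fst h'
  have h2 := congrArg Prod.snd h'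
  simp only [Prod.smul_fst, Prod.smul_snd, smul_eq_mul, mul_one] at h1 h2
  refine ⟨h1, ?_⟩
  rw [← h1] at h2
  have h3 := smul_right_injective (Euc m) hc.ne' h2
  exact Subtype.ext h3

theorem boundary_seq {m : ℕ} {ρ : LinAction G (Mink m)} {β : Action G (Sn m)}
    (hβ : IsBoundary ρ β) {h : ℕ → G} (hh : ∀ v, Tendsto (fun n => ρ.map (h n) v) atTop (𝓝 v))
    (y : Sn m) : Tendsto (fun n => β.map (h n) y) atTop (𝓝 y) := by
  choose c hc hcy using fun n => hβ (h n) y
  have h1 : Tendsto (fun n => ((c n, c n • (β.map (h n) y : Metric.sphere (0 : Euc m) 1).1) :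
      ℝ × Euc m)) atTop (𝓝 ((1 : ℝ), (y : Metric.sphere (0 : Euc m) 1).1)) := by
    have h2 := hh (light y)
    have h3 : ∀ n, ρ.map (h n) (light y) =
        ((c n, c n • (β.map (h n) y : Metric.sphere (0 : Euc m) 1).1) : ℝ × Euc m) := by
      intro n
      rw [hcy n]
      change c n • ((1 : ℝ), (β.map (h n) y : Metric.sphere (0 : Euc m) 1).1) = _
      simp
    simp only [h3] at h2
    exact h2
  have h4 := (continuous_fst.tendsto _).comp h1
  have h5 := (continuous_snd.tendsto _).comp h1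
  have h6 : Tendsto (fun n => (c n)⁻¹ • (c n • (β.map (h n) y :
      Metric.sphere (0 : Euc m) 1).1)) atTop
      (𝓝 ((1 : ℝ)⁻¹ • (y : Metric.sphere (0 : Euc m) 1).1)) :=
    (h4.inv₀ one_ne_zero).smul h5
  simp only [inv_one, one_smul] at h6
  have h7 : ∀ n, (c n)⁻¹ • (c n • (β.map (h n) y : Metric.sphere (0 : Euc m) 1).1) =
      (β.map (h n) y : Metric.sphere (0 : Euc m) 1).1 := by
    intro n
    rw [smul_smul, inv_mul_cancel₀ (hc n).ne', one_smul]
  simp only [h7] at h6
  exact tendsto_subtype_rng.2 h6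

/-- The dichotomy. -/
theorem dichotomy {n m : ℕ} (hn : 1 ≤ n) (α : Action G (Sn n)) (hα : Converges α)
    (hmin : Minimal α) (ρ : LinAction G (Mink m)) (hρ : IsometricAct ρ) (β : Action G (Sn m))
    (hβ : IsBoundary ρ β) (hnp : ¬ ActsProperly (HypSpace m) (fun g => ρ.map g)) (x : Sn n)
    (y : Sn m) : closure (range fun g => (α.map g x, β.map g y)) =
      univ ×ˢ closure (range fun g => β.map g y) := by
  obtain ⟨h, hh, hv⟩ := exists_seq_of_not_proper ρ hρ hnp
  exact closure_eq (perfect hn) α hmin hα hh β (boundary_seq hβ hv) x y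

/-- Equivariant maps without any regularity. -/
theorem map_version {n m : ℕ} (hn : 1 ≤ n) (α : Action G (Sn n)) (hα : Converges α)
    (hmin : Minimal α) (ρ : LinAction G (Mink m)) (hρ : IsometricAct ρ) (β : Action G (Sn m))
    (hβ : IsBoundary ρ β) (D : Set (Sn n)) (hD : ∀ g, ∀ x ∈ D, α.map g x ∈ D)
    (f : Sn n → Sn m) (hf : ∀ g, ∀ x ∈ D, f (α.map g x) = β.map g (f x)) (U : Set (Sn n))
    (hU : IsOpen U) (hne : U.Nonempty) (hndense : ¬ f '' D ⊆ closure (f '' (D ∩ U))) :
    ActsProperly (HypSpace m) (fun g => ρ.map g) := by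
  by_contra hnp
  apply hndense
  rintro _ ⟨x, hx, rfl⟩
  rw [mem_closure_iff]
  intro V hV hfx
  obtain ⟨u, hu⟩ := hne
  have h1 := dichotomy hn α hα hmin ρ hρ β hβ hnp x (f x)
  have h2 : (u, f x) ∈ closure (range fun g => (α.map g x, β.map g (f x))) := by
    rw [h1]
    exact ⟨mem_univ _, subset_closure ⟨1, β.map_one _⟩⟩
  obtain ⟨_, ⟨hU', hV'⟩, g, rfl⟩ := mem_closure_iff.1 h2 (U ×ˢ V) (hU.prod hV) ⟨hu, hfx⟩
  refine ⟨β.map g (f x), hV', α.map g x, ⟨hD g x hx, hU'⟩, hf g x hx⟩

/-- A Baire measurable map is continuous on a comeager set. -/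
theorem exists_residual {X Y : Type} [TopologicalSpace X] [TopologicalSpace Y]
    [SecondCountableTopology Y] (f : X → Y)
    (hf : ∀ V : Set Y, IsOpen V → BaireMeasurableSet (f ⁻¹' V)) :
    ∃ D ∈ residual X, ∀ x ∈ D, ∀ V : Set Y, IsOpen V → f x ∈ V →
      ∃ U : Set X, IsOpen U ∧ x ∈ U ∧ ∀ z ∈ D, z ∈ U → f z ∈ V := by
  obtain ⟨B, hBc, -, hB⟩ := TopologicalSpace.exists_countable_basis Y
  have h1 : ∀ b : Set Y, ∃ u : Set X, IsOpen u ∧
      (b ∈ B → ∀ᶠ x in residual X, (x ∈ f ⁻¹' b ↔ x ∈ u)) := by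
    intro b
    by_cases hb : b ∈ B
    · obtain ⟨u, hu, hbu⟩ := (hf b (hB.isOpen hb)).residualEq_isOpen
      exact ⟨u, hu, fun _ => hbu.mem_iff⟩
    · exact ⟨∅, isOpen_empty, fun h => absurd h hb⟩
  choose u hu hu' using h1
  refine ⟨{x | ∀ b ∈ B, (x ∈ f ⁻¹' b ↔ x ∈ u b)}, ?_, ?_⟩
  · have := (eventually_countable_ball hBc).2 fun b hb => hu' b hb
    exact this
  · intro x hx V hV hxV
    obtain ⟨b, hb, hxb, hbV⟩ := hB.exists_subset_of_mem_open hxV hV
    refine ⟨u b, hu b, (hx b hb).1 hxb, fun z hz hzu => hbV ((hz b hb).2 hzu)⟩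

/-- Baire measurable generic boundary maps. -/
theorem baire_version {n m : ℕ} (hn : 1 ≤ n) [Countable G] (α : Action G (Sn n))
    (hα : Converges α) (hmin : Minimal α) (ρ : LinAction G (Mink m)) (hρ : IsometricAct ρ)
    (β : Action G (Sn m)) (hβ : IsBoundary ρ β) (f : Sn n → Sn m)
    (hf : ∀ V : Set (Sn m), IsOpen V → BaireMeasurableSet (f ⁻¹' V))
    (hequi : ∀ g, ∀ᶠ x in residual (Sn n), f (α.map g x) = β.map g (f x))
    (hconst : ∀ y, ¬ ∀ᶠ x in residual (Sn n), f x = y) :
    ActsProperly (HypSpace m) (fun g => ρ.map g) := by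
  have hsc : SecondCountableTopology (Sn m) :=
    inferInstanceAs (SecondCountableTopology (Metric.sphere (0 : Euc m) 1))
  obtain ⟨D₀, hD₀, hcont⟩ := exists_residual f hf
  set D : Set (Sn n) := {x | ∀ g, α.map g x ∈ D₀ ∧ f (α.map g x) = β.map g (f x)} with hDdef
  have hDres : D ∈ residual (Sn n) := by
    have : ∀ᶠ x in residual (Sn n), ∀ g, α.map g x ∈ D₀ ∧ f (α.map g x) = β.map g (f x) := by
      rw [eventually_countable_forall]
      intro g
      refine Filter.Eventually.and ?_ (hequi g)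
      have h1 : Tendsto (α.map g) (residual (Sn n)) (residual (Sn n)) :=
        tendsto_residual_of_isOpenMap (α.cont g) (α.hom g).isOpenMap
      exact h1.eventually hD₀
    exact this
  have hDinv : ∀ g, ∀ x ∈ D, α.map g x ∈ D := by
    intro g x hx k
    rw [← α.map_mul]
    refine ⟨(hx _).1, ?_⟩
    rw [(hx _).2, (hx _).2, β.map_mul]
  have hDD₀ : ∀ x ∈ D, x ∈ D₀ := by
    intro x hx
    have := (hx 1).1
    rwa [α.map_one] at this
  obtain ⟨x₁, hx₁, x₂, hx₂, hne⟩ : ∃ x₁ ∈ D, ∃ x₂ ∈ D, f x₁ ≠ f x₂ := by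
    by_contra hcon
    push Not at hcon
    rcases D.eq_empty_or_nonempty with h0 | ⟨x₁, hx₁⟩
    · refine hconst (β.map 1 (f (Classical.choice ?_))) ?_
      · have hs : (Metric.sphere (0 : Euc n) 1).Nonempty := by
          have : Nontrivial (Euc n) := inferInstance
          exact NormedSpace.sphere_nonempty.2 zero_le_one
        exact ⟨(⟨hs.some, hs.some_mem⟩ : Metric.sphere (0 : Euc n) 1)⟩
      · filter_upwards [hDres] with x hx
        rw [h0] at hx
        exact absurd hx (notMem_empty x)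
    · refine hconst (f x₁) ?_
      filter_upwards [hDres] with x hx
      exact hcon x hx x₁ hx₁
  obtain ⟨V₁, V₂, hV₁, hV₂, h1, h2, hdisj⟩ := t2_separation hne
  obtain ⟨U, hU, hxU, hUV⟩ := hcont x₁ (hDD₀ x₁ hx₁) V₁ hV₁ h1
  refine map_version hn α hα hmin ρ hρ β hβ D hDinv f (fun g x hx => (hx g).2) U hU ⟨x₁, hxU⟩ ?_
  intro hsub
  obtain ⟨_, hy, z, ⟨hzD, hzU⟩, rfl⟩ := mem_closure_iff.1 (hsub ⟨x₂, hx₂, rfl⟩) V₂ hV₂ h2
  exact disjoint_left.1 hdisj (hUV z (hDD₀ z hzD) hzU) hy

/-- The boundary action exists. -/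
theorem exists_boundary {m : ℕ} (ρ : LinAction G (Mink m)) (hρ : IsometricAct ρ) :
    ∃ β : Action G (Sn m), IsBoundary ρ β := by
  have hiso : ∀ g, IsIso (E := Euc m) (ρ.hom g) := fun g => ⟨fun v => hρ.1 g v, hρ.2 g⟩
  -- the image of a light vector
  have himg : ∀ g (y : Sn m), 0 < time (ρ.map g (light y)) ∧
      ‖(show ℝ × Euc m from ρ.map g (light y)).2‖ = time (ρ.map g (light y)) := by
    intro g y
    have h1 : (light y : ℝ × Euc m) ∈ closure (Lc (Euc m)) := by
      rw [closure_Lc]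
      change ‖(y : Metric.sphere (0 : Euc m) 1).1‖ ≤ (1 : ℝ)
      exact (norm_Sn y).le
    have h2 : (show ℝ × Euc m from ρ.map g (light y)) ∈ closure (Lc (Euc m)) :=
      map_mem_closure (f := fun v : ℝ × Euc m => (show ℝ × Euc m from ρ.map g v))
        (ρ.map g).continuous h1 fun v hv => isIso_pres (hiso g) hv
    rw [closure_Lc] at h2
    have h2' : ‖(show ℝ × Euc m from ρ.map g (light y)).2‖ ≤
        (show ℝ × Euc m from ρ.map g (light y)).1 := h2
    have h3 : lor (ρ.map g (light y)) = lor (light y) := hρ.1 g _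
    have h4 : lor (light y) = 0 := by
      change (1 : ℝ) ^ 2 - ‖(y : Metric.sphere (0 : Euc m) 1).1‖ ^ 2 = 0
      rw [norm_Sn y]
      ring
    rw [h4] at h3
    have h5 : (show ℝ × Euc m from ρ.map g (light y)).1 ^ 2 -
        ‖(show ℝ × Euc m from ρ.map g (light y)).2‖ ^ 2 = 0 := h3
    have h6 : 0 ≤ (show ℝ × Euc m from ρ.map g (light y)).1 := (norm_nonneg _).trans h2'
    have h7 : ‖(show ℝ × Euc m from ρ.map g (light y)).2‖ =
        (show ℝ × Euc m from ρ.map g (light y)).1 := by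
      have h8 : (show ℝ × Euc m from ρ.map g (light y)).1 ^ 2 =
        ‖(show ℝ × Euc m from ρ.map g (light y)).2‖ ^ 2 := by linarith
      exact ((sq_eq_sq₀ h6 (norm_nonneg _)).1 h8).symm
    refine ⟨?_, h7⟩
    rcases h6.lt_or_eq with h8 | h8
    · exact h8
    · exfalso
      have h9 : (show ℝ × Euc m from ρ.map g (light y)) = 0 := by
        refine Prod.ext h8.symm ?_
        rw [← h8] at h7
        exact norm_eq_zero.1 h7
      have h10 : ρ.map g⁻¹ (ρ.map g (light y)) = light y := by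
        rw [← ρ.map_mul, inv_mul_cancel, ρ.map_one]
      have h11 : ρ.map g (light y) = 0 := h9
      rw [h11, map_zero] at h10
      have h12 : (0 : ℝ) = 1 := congrArg Prod.fst (show (0 : ℝ × Euc m) =
        ((1 : ℝ), (y : Metric.sphere (0 : Euc m) 1).1) from h10)
      exact zero_ne_one h12
  set b : G → Sn m → Sn m := fun g y =>
    (⟨(time (ρ.map g (light y)))⁻¹ • (show ℝ × Euc m from ρ.map g (light y)).2, by
      rw [mem_sphere_zero_iff_norm, norm_smul, (himg g y).2, norm_inv,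
        Real.norm_of_nonneg (himg g y).1.le, inv_mul_cancel₀ (himg g y).1.ne']⟩ :
      Metric.sphere (0 : Euc m) 1) with hb
  have hbl : ∀ g y, ρ.map g (light y) = time (ρ.map g (light y)) • light (b g y) := by
    intro g y
    have h1 := (himg g y).1
    change (show ℝ × Euc m from ρ.map g (light y)) = time (ρ.map g (light y)) •
      ((1 : ℝ), (time (ρ.map g (light y)))⁻¹ • (show ℝ × Euc m from ρ.map g (light y)).2)
    refine Prod.ext ?_ ?_
    · simp [time]
    · simp only [Prod.smul_snd, smul_smul]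
      rw [mul_inv_cancel₀ h1.ne', one_smul]
  refine ⟨⟨b, fun g => ?_, fun x => ?_, fun g h x => ?_⟩, fun g y => ⟨_, (himg g y).1, hbl g y⟩⟩
  · have hl : Continuous fun y : Sn m => (light y : ℝ × Euc m) :=
      continuous_const.prodMk continuous_subtype_val
    have h1 : Continuous fun y : Sn m => (show ℝ × Euc m from ρ.map g (light y)) :=
      (ρ.map g).continuous.comp hl
    have h2 : Continuous fun y : Sn m => time (ρ.map g (light y)) := continuous_fst.comp h1
    exact Continuous.subtype_mk ((h2.inv₀ fun y => (himg g y).1.ne').smul (continuous_snd.comp h1)) _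
  · have h1 := hbl 1 x
    rw [ρ.map_one] at h1
    have h2 : (1 : ℝ) • light x = time (light x) • light (b 1 x) := by
      rw [one_smul]
      exact h1
    exact (light_inj one_pos h2).2.symm
  · have h1 := hbl (g * h) x
    rw [ρ.map_mul, hbl h x, map_smul, hbl g (b h x), smul_smul] at h1
    refine (light_inj ?_ h1).2.symm
    exact mul_pos (himg h x).1 (himg g (b h x)).1

end Pool.Agent.TH632.DJ
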