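import Pool.Agent.TH632.DJ.C

/-!
# Homomorphisms to locally compact groups
-/

set_option autoImplicit false

open Filter Topology Set Pool.Agent.TH289.C

namespace Pool.Agent.TH632.DJ

variable {G : Type} [Group G]

section Gen

variable {H : Type} [Group H] [TopologicalSpace H] [IsTopologicalGroup H]
  [FirstCountableTopology H]

/-- If infinitely many elements are mapped to a compact set, infinitely many are mapped close to
the identity. -/
theorem gen_infinite (ρ : G →* H) {K : Set H} (hK : IsCompact K)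
    (hS : {g : G | ρ g ∈ K}.Infinite) {W : Set H} (hW : W ∈ 𝓝 (1 : H)) :
    {g : G | ρ g ∈ W}.Infinite := by
  set e := hS.natEmbedding
  obtain ⟨A, -, ψ, hψ, hlim⟩ := hK.tendsto_subseq (x := fun n => ρ (e n)) fun n => (e n).2
  have h1 : Tendsto (fun z : ℕ × ℕ => (ρ (e (ψ z.1)))⁻¹ * ρ (e (ψ z.2))) (atTop ×ˢ atTop)
      (𝓝 (1 : H)) := by
    have h2 : Tendsto (fun z : ℕ × ℕ => (ρ (e (ψ z.1)))⁻¹ * ρ (e (ψ z.2))) (atTop ×ˢ atTop)
        (𝓝 (A⁻¹ * A)) :=
      ((hlim.comp tendsto_fst).inv).mul (hlim.comp tendsto_snd)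
    rwa [inv_mul_cancel] at h2
  have h2 := h1 hW
  rw [prod_atTop_atTop_eq, mem_map, mem_atTop_sets] at h2
  obtain ⟨⟨N, M⟩, hNM⟩ := h2
  have hinj : Function.Injective fun k : ℕ => (e (ψ N) : G)⁻¹ * (e (ψ (M + k)) : G) := by
    intro k l hkl
    have h3 : (e (ψ (M + k)) : G) = e (ψ (M + l)) := mul_left_cancel hkl
    have h4 := e.injective (Subtype.ext h3)
    have h5 := hψ.injective h4
    omega
  refine (infinite_range_of_injective hinj).mono ?_
  rintro _ ⟨k, rfl⟩
  have h3 := hNM (N, M + k) ⟨le_rfl, Nat.le_add_right _ _⟩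
  simp only [mem_preimage] at h3
  simpa using h3

omit [IsTopologicalGroup H] in
theorem gen_seq (ρ : G →* H) (hinf : ∀ W ∈ 𝓝 (1 : H), {g : G | ρ g ∈ W}.Infinite) :
    ∃ h : ℕ → G, Tendsto h atTop cofinite ∧ Tendsto (fun n => ρ (h n)) atTop (𝓝 1) := by
  classical
  obtain ⟨W, hW⟩ := (𝓝 (1 : H)).exists_antitone_basis
  obtain ⟨f, hfP, hf⟩ := exists_seq_of_forall_finset_exists
    (fun z : ℕ × G => ρ z.2 ∈ W z.1)
    (fun z w => z.1 < w.1 ∧ z.2 ≠ w.2) (fun s _ => by
      obtain ⟨g, hg, hgs⟩ := (hinf _ (hW.mem (s.sup Prod.fst + 1))).exists_notMem_finset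
        (s.image Prod.snd)
      refine ⟨(s.sup Prod.fst + 1, g), hg, fun z hz => ⟨?_, ?_⟩⟩
      · exact Nat.lt_succ_of_le (Finset.le_sup (f := Prod.fst) hz)
      · rintro rfl
        exact hgs (Finset.mem_image_of_mem _ hz))
  have hmono : StrictMono fun n => (f n).1 := fun m n hmn => (hf m n hmn).1
  have hinj : Function.Injective fun n => (f n).2 := by
    intro m n hmn
    by_contra hne
    rcases lt_or_gt_of_ne hne with h | h
    · exact (hf m n h).2 hmn
    · exact (hf n m h).2 hmn.symm
  refine ⟨fun n => (f n).2, ?_, ?_⟩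
  · rw [← Nat.cofinite_eq_atTop]
    exact hinj.tendsto_cofinite
  · rw [hW.tendsto_right_iff]
    intro i _
    filter_upwards [eventually_ge_atTop i] with n hn
    exact hW.antitone (hn.trans (hmono.id_le n)) (hfP n)

/-- The general disjointness theorem. -/
theorem gen_closure {X : Type} [TopologicalSpace X] [T1Space X] (hX : ∀ x : X, ¬ IsOpen {x})
    (α : Action G X) (hα : Converges α) (hmin : Minimal α) (ρ : G →* H)
    {K : Set H} (hK : IsCompact K) (hS : {g : G | ρ g ∈ K}.Infinite)
    {Y : Type} [TopologicalSpace Y] [MulAction H Y] [ContinuousSMul H Y] (x : X) (y : Y) :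
    closure (range fun g => (α.map g x, ρ g • y)) =
      univ ×ˢ closure (range fun g => ρ g • y) := by
  obtain ⟨h, hh, hlim⟩ := gen_seq ρ fun W hW => gen_infinite ρ hK hS hW
  have hX' : ∀ (U : Set X) (x : X), IsOpen U → U.Nonempty → ∃ u ∈ U, u ≠ x := by
    intro U x hU hne
    by_contra hcon
    push Not at hcon
    apply hX x
    have : U = {x} := by
      apply Subset.antisymm
      · intro u hu
        exact hcon u hu
      · obtain ⟨u, hu⟩ := hne
        have := hcon u hu
        rintro _ rfl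
        rwa [this] at hu
    rwa [this] at hU
  exact closure_eq hX' α hmin hα hh
    (⟨fun g y => ρ g • y, fun g => continuous_const_smul (ρ g), fun y => by simp,
      fun g h y => by simp [mul_smul]⟩ : Action G Y)
    (fun y => by
      have h1 : Tendsto (fun n => ρ (h n) • y) atTop (𝓝 ((1 : H) • y)) :=
        hlim.smul tendsto_const_nhds
      simpa using h1) x y

end Gen

end Pool.Agent.TH632.DJ
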